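import Mathlib
import Pool.Agent.H770R2.Spec.Props

open scoped ComplexOrder InnerProductSpace
open Filter

noncomputable section

namespace H770R2.Spec

namespace StepAux

theorem gfun_cont (t : ℝ) (n : ℕ) : Continuous (gfun t n) := by
  unfold gfun
  exact continuous_const.min (continuous_const.max
    (continuous_const.mul (continuous_id.sub continuous_const)))

theorem gfun_nonneg (t : ℝ) (n : ℕ) (s : ℝ) : 0 ≤ gfun t n s :=
  le_min zero_le_one (le_max_left _ _)

theorem gfun_le_one (t : ℝ) (n : ℕ) (s : ℝ) : gfun t n s ≤ 1 := min_le_left _ _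

theorem gfun_one {N n m : ℕ} (hN : 0 < N) (hn : N ≤ n) {s : ℝ} (h : (m : ℝ) + 1 ≤ N * s) :
    gfun ((m : ℝ) / N) n s = 1 := by
  have hN' : (0 : ℝ) < N := by exact_mod_cast hN
  have hn' : (N : ℝ) ≤ n := by exact_mod_cast hn
  have h1 : 1 / (N : ℝ) ≤ s - m / N := by
    rw [div_le_iff₀ hN', sub_mul, div_mul_cancel₀ _ hN'.ne']
    linarith
  have h2 : 1 ≤ (n : ℝ) * (s - m / N) := by
    calc (1 : ℝ) = N * (1 / N) := by field_simp
      _ ≤ n * (1 / N) := mul_le_mul_of_nonneg_right hn' (by positivity)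
      _ ≤ n * (s - m / N) := mul_le_mul_of_nonneg_left h1 (by positivity)
  unfold gfun
  rw [max_eq_right (by linarith), min_eq_left h2]

theorem gfun_zero {N n m : ℕ} (hN : 0 < N) {s : ℝ} (h : N * s ≤ (m : ℝ)) :
    gfun ((m : ℝ) / N) n s = 0 := by
  have hN' : (0 : ℝ) < N := by exact_mod_cast hN
  have h1 : s - m / N ≤ 0 := by
    rw [sub_nonpos, le_div_iff₀ hN']
    linarith
  have h2 : (n : ℝ) * (s - m / N) ≤ 0 := mul_nonpos_of_nonneg_of_nonpos (by positivity) h1
  unfold gfun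
  rw [max_eq_left h2, min_eq_right zero_le_one]

theorem sum1 {N n : ℕ} (hN : 0 < N) (hn : N ≤ n) {s : ℝ} (hs : 0 ≤ s) (m : ℕ) :
    ((m : ℝ) ≤ N * s → ∑ i ∈ Finset.range m, gfun ((i : ℝ) / N) n s = m) ∧
    ((N : ℝ) * s ≤ m → |(N : ℝ) * s - ∑ i ∈ Finset.range m, gfun ((i : ℝ) / N) n s| ≤ 1) := by
  induction m with
  | zero =>
    refine ⟨fun _ => by simp, fun h => ?_⟩
    have h0 : 0 ≤ (N : ℝ) * s := by positivity
    rw [Nat.cast_zero] at h
    have : (N : ℝ) * s = 0 := le_antisymm h h0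
    rw [this]
    simp
  | succ m ih =>
    rw [Finset.sum_range_succ]
    constructor
    · intro h
      push_cast at h ⊢
      rw [ih.1 (by linarith), gfun_one hN hn h]
    · intro h
      push_cast at h
      rcases le_or_gt ((N : ℝ) * s) m with h1 | h1
      · rw [gfun_zero hN h1, add_zero]
        exact ih.2 h1
      · rw [ih.1 h1.le]
        have g0 := gfun_nonneg ((m : ℝ) / N) n s
        have g1 := gfun_le_one ((m : ℝ) / N) n s
        rw [abs_le]
        constructor <;> linarith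

theorem sum2 {N n : ℕ} (hN : 0 < N) (hn : N ≤ n) {s : ℝ} (hs : 0 ≤ s) (m : ℕ) :
    ((m : ℝ) ≤ N * s →
      ∑ i ∈ Finset.range m, ((2 * i + 1 : ℕ) : ℝ) * gfun ((i : ℝ) / N) n s = (m : ℝ) ^ 2) ∧
    ((N : ℝ) * s ≤ m → |((N : ℝ) * s) ^ 2 -
      ∑ i ∈ Finset.range m, ((2 * i + 1 : ℕ) : ℝ) * gfun ((i : ℝ) / N) n s| ≤
        2 * ((N : ℝ) * s) + 1) := by
  induction m with
  | zero =>
    refine ⟨fun _ => by simp, fun h => ?_⟩
    have h0 : 0 ≤ (N : ℝ) * s := by positivity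
    rw [Nat.cast_zero] at h
    have : (N : ℝ) * s = 0 := le_antisymm h h0
    rw [this]
    simp
  | succ m ih =>
    rw [Finset.sum_range_succ]
    constructor
    · intro h
      push_cast at h
      rw [ih.1 (by linarith), gfun_one hN hn h]
      push_cast
      ring
    · intro h
      push_cast at h
      rcases le_or_gt ((N : ℝ) * s) m with h1 | h1
      · rw [gfun_zero hN h1, mul_zero, add_zero]
        exact ih.2 h1
      · rw [ih.1 h1.le]
        have g0 := gfun_nonneg ((m : ℝ) / N) n s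
        have g1 := gfun_le_one ((m : ℝ) / N) n s
        have m0 : (0 : ℝ) ≤ m := Nat.cast_nonneg m
        push_cast
        have k0 : 0 ≤ (2 * (m : ℝ) + 1) * gfun ((m : ℝ) / N) n s := by positivity
        have k1 : (2 * (m : ℝ) + 1) * gfun ((m : ℝ) / N) n s ≤ 2 * (m : ℝ) + 1 :=
          mul_le_of_le_one_right (by positivity) g1
        have k2 : (m : ℝ) ^ 2 ≤ ((N : ℝ) * s) ^ 2 := pow_le_pow_left₀ m0 h1.le 2
        have k3 : ((N : ℝ) * s) ^ 2 ≤ ((m : ℝ) + 1) ^ 2 := pow_le_pow_left₀ (by linarith) h 2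
        rw [abs_le]
        constructor <;> nlinarith

end StepAux

open StepAux in
theorem prove_step : P_step := by
  intro A _ _ _ h h0 h1 N n hN hn
  have hN' : (0 : ℝ) < N := by exact_mod_cast hN
  have hN1 : (1 : ℝ) ≤ N := by exact_mod_cast hN
  have hsa : IsSelfAdjoint h := IsSelfAdjoint.of_nonneg h0
  have hsp0 : ∀ x ∈ spectrum ℝ h, 0 ≤ x := fun x hx => spectrum_nonneg_of_nonneg h0 hx
  have hsp1 : ∀ x ∈ spectrum ℝ h, x ≤ 1 := by
    have := (le_algebraMap_iff_spectrum_le (R := ℝ) (r := 1) (a := h)).1 (by simpa using h1)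
    exact this
  have hc : ∀ i : ℕ, Continuous (gfun ((i : ℝ) / N) n) := fun i => gfun_cont _ _
  constructor
  · have e : h - (1 / (N : ℂ)) • ∑ i ∈ Finset.range N, cfc (gfun ((i : ℝ) / N) n) h =
        cfc (fun s : ℝ => s - (1 / (N : ℝ)) * ∑ i ∈ Finset.range N, gfun ((i : ℝ) / N) n s) h := by
      rw [cfc_sub (fun s : ℝ => s)
        (fun s : ℝ => (1 / (N : ℝ)) * ∑ i ∈ Finset.range N, gfun ((i : ℝ) / N) n s) h
        continuousOn_id
        (continuous_const.mul (continuous_finsetSum _ fun i _ => hc i)).continuousOn,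
        cfc_id' ℝ h, cfc_const_mul (1 / (N : ℝ))
        (fun s : ℝ => ∑ i ∈ Finset.range N, gfun ((i : ℝ) / N) n s) h
        (continuous_finsetSum _ fun i _ => hc i).continuousOn,
        show (fun s : ℝ => ∑ i ∈ Finset.range N, gfun ((i : ℝ) / N) n s) =
          ∑ i ∈ Finset.range N, gfun ((i : ℝ) / N) n by
            funext s
            rw [Finset.sum_apply],
        cfc_sum (fun i : ℕ => gfun ((i : ℝ) / N) n) h (Finset.range N)
          (fun i _ => (hc i).continuousOn)]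
      rw [show (1 / (N : ℂ)) = (((1 / (N : ℝ)) : ℝ) : ℂ) by push_cast; rfl, Complex.coe_smul]
    rw [e]
    apply norm_cfc_le (by positivity)
    intro s hs
    have k := (sum1 hN hn (hsp0 s hs) N).2 (by nlinarith [hsp1 s hs])
    rw [Real.norm_eq_abs]
    have e2 : s - 1 / (N : ℝ) * ∑ i ∈ Finset.range N, gfun ((i : ℝ) / N) n s =
        (1 / (N : ℝ)) * ((N : ℝ) * s - ∑ i ∈ Finset.range N, gfun ((i : ℝ) / N) n s) := by
      field_simp
    rw [e2, abs_mul, abs_of_pos (by positivity : (0 : ℝ) < 1 / N)]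
    exact mul_le_of_le_one_right (by positivity) k
  · have hc2 : ∀ i : ℕ, Continuous (fun s => ((2 * i + 1 : ℕ) : ℝ) * gfun ((i : ℝ) / N) n s) :=
      fun i => continuous_const.mul (hc i)
    have e : h * h - (1 / (N : ℂ) ^ 2) • ∑ i ∈ Finset.range N,
        ((2 * i + 1 : ℕ) : ℂ) • cfc (gfun ((i : ℝ) / N) n) h =
        cfc (fun s : ℝ => s * s - (1 / (N : ℝ) ^ 2) * ∑ i ∈ Finset.range N,
          ((2 * i + 1 : ℕ) : ℝ) * gfun ((i : ℝ) / N) n s) h := by
      rw [cfc_sub (fun s : ℝ => s * s)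
        (fun s : ℝ => (1 / (N : ℝ) ^ 2) * ∑ i ∈ Finset.range N,
          ((2 * i + 1 : ℕ) : ℝ) * gfun ((i : ℝ) / N) n s) h
        (continuous_id.mul continuous_id).continuousOn
        (continuous_const.mul (continuous_finsetSum _ fun i _ => hc2 i)).continuousOn,
        cfc_mul (fun s : ℝ => s) (fun s : ℝ => s) h continuousOn_id continuousOn_id,
        cfc_id' ℝ h, cfc_const_mul (1 / (N : ℝ) ^ 2)
        (fun s : ℝ => ∑ i ∈ Finset.range N,
          ((2 * i + 1 : ℕ) : ℝ) * gfun ((i : ℝ) / N) n s) h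
        (continuous_finsetSum _ fun i _ => hc2 i).continuousOn,
        show (fun s : ℝ => ∑ i ∈ Finset.range N,
          ((2 * i + 1 : ℕ) : ℝ) * gfun ((i : ℝ) / N) n s) =
          ∑ i ∈ Finset.range N, (fun s => ((2 * i + 1 : ℕ) : ℝ) * gfun ((i : ℝ) / N) n s) by
            funext s
            rw [Finset.sum_apply],
        cfc_sum (fun (i : ℕ) (s : ℝ) => ((2 * i + 1 : ℕ) : ℝ) * gfun ((i : ℝ) / N) n s) h
          (Finset.range N) (fun i _ => (hc2 i).continuousOn)]
      rw [show (1 / (N : ℂ) ^ 2) = (((1 / (N : ℝ) ^ 2) : ℝ) : ℂ) by push_cast; rfl,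
        Complex.coe_smul]
      congr 2
      apply Finset.sum_congr rfl
      intro i _
      rw [cfc_const_mul ((2 * i + 1 : ℕ) : ℝ) (gfun ((i : ℝ) / N) n) h (hc i).continuousOn,
        show ((2 * i + 1 : ℕ) : ℂ) = (((2 * i + 1 : ℕ) : ℝ) : ℂ) by push_cast; rfl,
        Complex.coe_smul]
    rw [e]
    apply norm_cfc_le (by positivity)
    intro s hs
    have s0 := hsp0 s hs
    have s1 := hsp1 s hs
    have k := (sum2 hN hn s0 N).2 (by nlinarith)
    rw [Real.norm_eq_abs]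
    have e2 : s * s - 1 / (N : ℝ) ^ 2 * ∑ i ∈ Finset.range N,
        ((2 * i + 1 : ℕ) : ℝ) * gfun ((i : ℝ) / N) n s =
        (1 / (N : ℝ) ^ 2) * (((N : ℝ) * s) ^ 2 - ∑ i ∈ Finset.range N,
          ((2 * i + 1 : ℕ) : ℝ) * gfun ((i : ℝ) / N) n s) := by
      field_simp
    rw [e2, abs_mul, abs_of_pos (by positivity : (0 : ℝ) < 1 / (N : ℝ) ^ 2)]
    have k2 : 2 * ((N : ℝ) * s) + 1 ≤ 3 * N := by nlinarith
    calc 1 / (N : ℝ) ^ 2 * |((N : ℝ) * s) ^ 2 - ∑ i ∈ Finset.range N,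
          ((2 * i + 1 : ℕ) : ℝ) * gfun ((i : ℝ) / N) n s| ≤ 1 / (N : ℝ) ^ 2 * (3 * N) :=
          mul_le_mul_of_nonneg_left (k.trans k2) (by positivity)
      _ = 3 / N := by field_simp

end H770R2.Spec
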